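import Pool.Agent.H74.SubLat

set_option autoImplicit false

namespace Pool.Agent.Results.MP_d4b74c_al.NotFinite

open Pool.Agent.H74.SubLat FirstOrder

/-- The class of lattices embeddable into subspace lattices over division rings is not specified
by a finite set of first-order sentences. -/
theorem result : ¬ ∃ T : lang.Theory, T.Finite ∧
    ∀ (L : Type) [Lattice L] [Nonempty L], L ⊨ T ↔ InKDiv L :=
  not_fin InKDiv (fun _ _ h => h) fun _ _ W _ _ h => ⟨ℚ, W, _, _, _, h⟩

end Pool.Agent.Results.MP_d4b74c_al.NotFinite
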